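import Pool.Agent.Helper65.Desc.Main

/-!
Descent of canonical forms along maps of small degree, over a fibration.
-/

set_option autoImplicit false
set_option linter.unusedSectionVars false
set_option linter.overlappingInstances false

open FF Module Pool.Agent.W602.GT Pool.Agent.W603.LV Pool.Agent.W619.PQ Pool.Agent.Y172
open Pool.Agent.W619.TW

namespace Pool.Agent.Helper65.Desc

section

variable {K : Type} [Field K] [Algebra ℂ K]

theorem sec_one {n w : ℕ} {ω : (Fin n → Derivation ℂ K K) → K}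
    (h : IsSec ℂ K n (fun _ => False) {1} w 0 ω) : IsSec ℂ K n (fun _ => False) {1} w 1 ω := by
  have hdom : ∀ (v : Place ℂ K) (f : K), Dom v {1} 0 f → Dom v {1} 1 f := by
    intro v f hf
    rcases hf with hf | ⟨s, hs, h0, h1⟩
    · exact Or.inl hf
    · refine Or.inr ⟨s, hs, h0, ?_⟩
      rw [Finset.mem_singleton] at hs
      rw [hs, v.ord_one] at h1 ⊢
      simpa using h1
  exact ⟨h.1, fun v hv hB D hD => hdom v _ (h.2.1 v hv hB D hD), fun v _ hB => hB.elim⟩

/-- the Kodaira dimension is at most the numerical dimension -/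
theorem kod_le_num {n d h : ℕ} (h1 : NumLe ℂ K n (fun _ => False) d)
    (h2 : Pool.Agent.W619.TW.KodGe ℂ K n (fun _ => False) h) : h ≤ d := by
  by_contra hlt
  push Not at hlt
  obtain ⟨m, hm, hk⟩ := h2
  obtain ⟨C, hC⟩ := h1 {1}
  obtain ⟨j, hj⟩ : ∃ j, j = C * m ^ d + 1 := ⟨_, rfl⟩
  have hj1 : 1 ≤ j := by omega
  have h3 : j ^ h ≤ C * (j * m) ^ d := by
    obtain ⟨ω, hω, hs⟩ := hk j hj1
    exact hC (j * m) _ (Nat.mul_pos hj1 hm) ⟨ω, hω, fun l => sec_one (hs l)⟩
  have h4 : j ^ (d + 1) ≤ j ^ h := Nat.pow_le_pow_right hj1 hlt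
  have h5 : j ^ d * j ≤ j ^ d * (C * m ^ d) := by
    calc j ^ d * j = j ^ (d + 1) := (pow_succ j d).symm
      _ ≤ C * (j * m) ^ d := h4.trans h3
      _ = j ^ d * (C * m ^ d) := by rw [mul_pow]; ring
  have h6 := Nat.le_of_mul_le_mul_left h5 (Nat.pow_pos hj1)
  omega

theorem not_kod {n d : ℕ} (hK : Algebra.trdeg ℂ K = n) (h1 : NumLe ℂ K n (fun _ => False) d) :
    ¬ Pool.Agent.W619.Y.KodTr ℂ K n (d + 1) := by
  intro h2
  have h3 := kod_le_num h1 (Pool.Agent.W300.PG.TRGE.main ℂ K n (d + 1) hK h2)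
  omega

end

section

variable {L K : Type} [Field L] [Field K] [Algebra ℂ L] [Algebra ℂ K] [Algebra L K]
  [IsScalarTower ℂ L K] [FiniteDimensional L K] [Algebra.EssFiniteType ℂ L]
  [Algebra.EssFiniteType ℂ K] {n N m M d : ℕ}

/-- the pull-back of a regular form is regular -/
theorem pull_regular (hL : Algebra.trdeg ℂ L = n) {z : Fin n → L} {E : Fin n → Derivation ℂ L L}
    (hz : IsTranscendenceBasis ℂ z) (hE : ∀ i j, E i (z j) = if i = j then 1 else 0)
    {η : (Fin n → Derivation ℂ L L) → L} (hη : IsPluri m η)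
    (hr : ∀ P : Place ℂ L, Divisorial n P → RegAt P η) (Q : Place ℂ K) (hQ : Divisorial n Q) :
    RegAt Q (plF m (fun j => algebraMap L K (z j)) (algebraMap L K (η E))) := by
  intro D hD
  obtain ⟨P, e, hQo⟩ := exists_below (K := L) Q
  have hPd := divisorial_down hQo hQ
  obtain ⟨yP, EP, i0, hl⟩ := exists_loc hL hPd
  have h1 : plF m (fun j => algebraMap L K (z j)) (algebraMap L K (η E)) D =
      (Matrix.of fun i j => D i (algebraMap L K (yP j))).det ^ m * algebraMap L K (η EP) :=
    Pool.Agent.W73.PG.PULL.form_eq z yP hz hl.bas E EP hE hl.dual η hη D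
  rw [h1]
  have h2 := pull_reg hQo hl hD (m := m) (ω := η) (b := 0) (hr _ hPd EP hl.pres)
  refine h2.mono ?_
  have he : (1 : ℤ) ≤ e := by exact_mod_cast hQo.1
  have h3 : (0 : ℤ) ≤ m := Int.natCast_nonneg _
  nlinarith

/-- the Kodaira dimension of the image is at most that of the variety -/
theorem kod_up (hL : Algebra.trdeg ℂ L = n) (hkod : Pool.Agent.W619.Y.KodTr ℂ L n d) :
    Pool.Agent.W619.Y.KodTr ℂ K n d := by
  obtain ⟨R, hR, η, hη, D, hD, hind⟩ := hkod
  obtain ⟨z, E, hz, hE⟩ := exists_crd (k := ℂ) (K := L) hL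
  choose E' hE' using fun i => exists_lift (k := ℂ) (K := L) (L := K) hL (E i)
  have hEK := lift_dual hE hE'
  have hp : ∀ l, IsPluri R (η l) := fun l => (hη l).1
  have hreg : ∀ l (P : Place ℂ L), Divisorial n P → RegAt P (η l) := by
    intro l P hP G hG
    rcases (hη l).2.1 P hP (fun h => h) G (fun i f hf => hG i f hf) with h | ⟨s, hs, -, h⟩
    · exact Or.inl h
    · right
      rw [Nat.cast_zero, zero_mul] at h
      exact h
  have hv : ∀ l, η l D = (Matrix.of fun i j => D i (z j)).det ^ R * η l E := fun l =>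
    pluri_coord hz hE (hp l) D
  have hdet : (Matrix.of fun i j => D i (z j)).det ^ R ≠ 0 := by
    intro h0
    apply hD 0
    rw [hv, h0, zero_mul]
  have hlE : ∀ l, η l E ≠ 0 := by
    intro l h0
    apply hD l
    rw [hv, h0, mul_zero]
  refine ⟨R, hR, fun l => plF R (fun j => algebraMap L K (z j)) (algebraMap L K (η l E)),
    fun l => isSec_pl (plF_pluri _ _ _) fun Q hQ => pull_regular hL hz hE (hp l) (hreg l) Q hQ,
    E', fun l => ?_, ?_⟩
  · beta_reduce
    rw [plF_dual hEK, Ne, map_eq_zero]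
    exact hlE l
  · have h1 : ∀ l : Fin d, plF R (fun j => algebraMap L K (z j)) (algebraMap L K (η l.succ E)) E' /
        plF R (fun j => algebraMap L K (z j)) (algebraMap L K (η 0 E)) E' =
        IsScalarTower.toAlgHom ℂ L K (η l.succ D / η 0 D) := by
      intro l
      rw [plF_dual hEK, plF_dual hEK, hv, hv, mul_div_mul_left _ _ hdet, map_div₀]
      rfl
    simp only [h1]
    exact hind.map' (f := IsScalarTower.toAlgHom ℂ L K) (algebraMap L K).injective

open IntermediateField.algebraAdjoinAdjoin in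
/-- the ratio of a pluricanonical form from below and a twisted form is algebraic over the base -/
theorem alg_ratio (hL : Algebra.trdeg ℂ L = n) (hm : 1 ≤ m) {k : ℕ} (hk : 1 ≤ k) {t : Fin N → K}
    (hd : Algebra.trdeg ℂ (IntermediateField.adjoin ℂ (Set.range t)) = d)
    {ω : (Fin n → Derivation ℂ K K) → K} (hM : 1 ≤ M) (hω : IsTwistedM n m M t ω)
    (hne : ∃ D, ω D ≠ 0) {θ : (Fin n → Derivation ℂ L L) → L} (hθ : IsPluri (m * k) θ)
    (hθr : ∀ P : Place ℂ L, Divisorial n P → RegAt P θ)
    (hkd : ¬ Pool.Agent.W619.Y.KodTr ℂ K n (d + 1)) {z : Fin n → L}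
    {E : Fin n → Derivation ℂ L L}
    (hz : IsTranscendenceBasis ℂ z) (hE : ∀ i j, E i (z j) = if i = j then 1 else 0)
    {E' : Fin n → Derivation ℂ K K}
    (hE' : ∀ i f, E' i (algebraMap L K f) = algebraMap L K (E i f)) :
    IsAlgebraic (IntermediateField.adjoin ℂ (Set.range t)) (algebraMap L K (θ E) / ω E' ^ k) := by
  classical
  by_contra halg
  have hK : Algebra.trdeg ℂ K = n := trdeg_up (K := L) hL
  have hωE := omega_ne hz hE hE' hω.1 hne
  have hωk : ω E' ^ k ≠ 0 := pow_ne_zero _ hωE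
  obtain ⟨g, hg⟩ : ∃ g, g = algebraMap L K (θ E) / ω E' ^ k := ⟨_, rfl⟩
  rw [← hg] at halg
  obtain ⟨τ, hτt, hτ, -⟩ := Pool.Agent.R885.exists_mono_basis hd
  choose J hJ using hτt
  have hzK : IsTranscendenceBasis ℂ (fun j => algebraMap L K (z j)) := hz.algebraMap_comp
  have hEK := lift_dual hE hE'
  have hind : AlgebraicIndependent ℂ (Fin.cons g τ : Fin (d + 1) → K) := by
    have h1 : Transcendental (Algebra.adjoin ℂ (Set.range τ)) g := by
      intro h2
      apply halg
      have h3 := (IsFractionRing.isAlgebraic_iff (Algebra.adjoin ℂ (Set.range τ))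
        (IntermediateField.adjoin ℂ (Set.range τ)) K).1 h2
      refine alg_mono ?_ h3
      rw [IntermediateField.adjoin_le_iff]
      rintro _ ⟨i, rfl⟩
      rw [← hJ i]
      exact IntermediateField.subset_adjoin _ _ ⟨J i, rfl⟩
    have h2 := (hτ.option_iff_transcendental g).2 h1
    have h3 := h2.comp (finSuccEquiv d) (finSuccEquiv d).injective
    have h4 : (Fin.cons g τ : Fin (d + 1) → K) =
        (fun o : Option (Fin d) => o.elim g τ) ∘ finSuccEquiv d := by
      funext l
      refine Fin.cases ?_ (fun i => ?_) l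
      · rw [Fin.cons_zero, Function.comp_apply, finSuccEquiv_zero, Option.elim_none]
      · rw [Fin.cons_succ, Function.comp_apply, finSuccEquiv_succ, Option.elim_some]
    rw [h4]
    exact h3
  have hform : ∀ s : K, (fun D => s * ω D ^ k) =
      plF (m * k) (fun j => algebraMap L K (z j)) (s * ω E' ^ k) := by
    intro s
    funext D
    rw [pluri_coord hzK hEK hω.1 D, plF, mul_pow, ← pow_mul]
    ring
  have hpow : ∀ (Q : Place ℂ K) (f : K) (c : ℕ), Q.Reg f → Q.Reg (f ^ c) := by
    intro Q f c hf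
    have h1 : Ge Q 0 f := hf
    have h2 := h1.pow c
    rw [mul_zero] at h2
    exact h2
  obtain ⟨v, hv⟩ : ∃ v : Fin (d + 2) → K, v = Fin.cons 1 (Fin.cons g τ) := ⟨_, rfl⟩
  have hv0 : v 0 = 1 := by rw [hv, Fin.cons_zero]
  have hvs : ∀ l : Fin (d + 1), v l.succ = (Fin.cons g τ : Fin (d + 1) → K) l := fun l => by
    rw [hv, Fin.cons_succ]
  have hω1 : ∀ Q : Place ℂ K, Divisorial n Q → RegAt Q ω := by
    intro Q hQ
    have h1 := hω.2 0 (by simp) Q hQ
    simpa using h1
  have hreg : ∀ l (Q : Place ℂ K), Divisorial n Q →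
      RegAt Q (plF (m * k) (fun j => algebraMap L K (z j)) (v l * ω E' ^ k)) := by
    intro l Q hQ
    refine Fin.cases ?_ (fun l => ?_) l
    · rw [hv0, ← hform]
      intro D hD
      beta_reduce
      rw [one_mul]
      exact hpow Q _ k (hω1 Q hQ D hD)
    · rw [hvs]
      refine Fin.cases ?_ (fun i => ?_) l
      · rw [Fin.cons_zero, hg, div_mul_cancel₀ _ hωk]
        exact pull_regular hL hz hE hθ hθr Q hQ
      · rw [Fin.cons_succ, ← hform]
        have h1 := hω.2 (Pi.single (J i) 1) (by simpa using hM) Q hQ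
        have h2 : ∏ j, t j ^ (Pi.single (J i) 1 : Fin N → ℕ) j = τ i := by
          rw [Finset.prod_eq_single (J i)]
          · rw [Pi.single_eq_same, pow_one]
            exact hJ i
          · intro b _ hb
            rw [Pi.single_eq_of_ne hb, pow_zero]
          · intro hi
            exact absurd (Finset.mem_univ _) hi
        rw [h2] at h1
        intro D hD
        obtain ⟨c, rfl⟩ : ∃ c, k = c + 1 := ⟨k - 1, by omega⟩
        have h3 : τ i * ω D ^ (c + 1) = (τ i * ω D) * ω D ^ c := by ring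
        beta_reduce
        rw [h3]
        exact Q.reg_mul (h1 D hD) (hpow Q _ c (hω1 Q hQ D hD))
  have hvne : ∀ l, v l ≠ 0 := by
    intro l
    refine Fin.cases ?_ (fun l => ?_) l
    · rw [hv0]
      exact one_ne_zero
    · rw [hvs]
      exact hind.ne_zero l
  · refine hkd ⟨m * k, Nat.mul_pos hm hk, fun l =>
      plF (m * k) (fun j => algebraMap L K (z j)) (v l * ω E' ^ k),
      fun l => isSec_pl (plF_pluri _ _ _) (hreg l), E', fun l => ?_, ?_⟩
    · beta_reduce
      rw [plF_dual hEK]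
      exact mul_ne_zero (hvne l) hωk
    · have h1 : ∀ l : Fin (d + 1),
          plF (m * k) (fun j => algebraMap L K (z j)) (v l.succ * ω E' ^ k) E' /
          plF (m * k) (fun j => algebraMap L K (z j)) (v 0 * ω E' ^ k) E' =
          (Fin.cons g τ : Fin (d + 1) → K) l := by
        intro l
        rw [plF_dual hEK, plF_dual hEK, hv0, one_mul, hvs, mul_div_cancel_right₀ _ hωk]
      simp only [h1]
      exact hind

/-- **The Iitaka fibration of the image comes from the base.** -/
theorem descends (hL : Algebra.trdeg ℂ L = n) (hm : 1 ≤ m) {t : Fin N → K}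
    (hd : Algebra.trdeg ℂ (IntermediateField.adjoin ℂ (Set.range t)) = d)
    {ω : (Fin n → Derivation ℂ K K) → K} (hM : 1 ≤ M) (hω : IsTwistedM n m M t ω)
    (hne : ∃ D, ω D ≠ 0) (hkd : ¬ Pool.Agent.W619.Y.KodTr ℂ K n (d + 1)) {R : ℕ} (hR : 1 ≤ R)
    {η η' : (Fin n → Derivation ℂ L L) → L} (hη : IsPluri R η) (hη' : IsPluri R η')
    (hr : ∀ P : Place ℂ L, Divisorial n P → RegAt P η)
    (hr' : ∀ P : Place ℂ L, Divisorial n P → RegAt P η') {D : Fin n → Derivation ℂ L L}
    (hD : η' D ≠ 0) :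
    IsAlgebraic (IntermediateField.adjoin ℂ (Set.range t)) (algebraMap L K (η D / η' D)) := by
  obtain ⟨z, E, hz, hE⟩ := exists_crd (k := ℂ) (K := L) hL
  choose E' hE' using fun i => exists_lift (k := ℂ) (K := L) (L := K) hL (E i)
  have hωE := omega_ne hz hE hE' hω.1 hne
  have hal : ∀ θ : (Fin n → Derivation ℂ L L) → L, IsPluri R θ →
      (∀ P : Place ℂ L, Divisorial n P → RegAt P θ) →
      IsAlgebraic (IntermediateField.adjoin ℂ (Set.range t))
        (algebraMap L K (θ E ^ m) / ω E' ^ R) := by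
    intro θ hθ hθr
    have h1 : IsPluri (m * R) (fun G => θ G ^ m) := by
      have h2 := pluri_pow hθ m
      rw [mul_comm] at h2
      exact h2
    refine alg_ratio hL hm hR hd hM hω hne h1 (fun P hP G hG => ?_) hkd hz hE hE'
    have h2 : Ge P 0 (θ G) := hθr P hP G hG
    have h3 := h2.pow m
    rw [mul_zero] at h3
    exact h3
  have hv : ∀ θ : (Fin n → Derivation ℂ L L) → L, IsPluri R θ →
      θ D = (Matrix.of fun i j => D i (z j)).det ^ R * θ E := fun θ hθ =>
    pluri_coord hz hE hθ D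
  have hdet : (Matrix.of fun i j => D i (z j)).det ^ R ≠ 0 := by
    intro h0
    apply hD
    rw [hv η' hη', h0, zero_mul]
  have h0E : η' E ≠ 0 := by
    intro h0
    apply hD
    rw [hv η' hη', h0, mul_zero]
  have h1 : η D / η' D = η E / η' E := by
    rw [hv η hη, hv η' hη', mul_div_mul_left _ _ hdet]
  rw [h1]
  refine IsAlgebraic.of_pow (n := m) hm ?_
  have h2 : algebraMap L K (η E / η' E) ^ m =
      (algebraMap L K (η E ^ m) / ω E' ^ R) * (algebraMap L K (η' E ^ m) / ω E' ^ R)⁻¹ := by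
    have h4 : ω E' ^ R ≠ 0 := pow_ne_zero _ hωE
    rw [map_div₀, map_pow, map_pow, div_pow, inv_div, div_mul_div_cancel₀ h4]
  rw [h2]
  exact (hal η hη hr).mul (hal η' hη' hr').inv

/-- forms with values in an intermediate field have a trace -/
theorem traceNe_of (hL : Algebra.trdeg ℂ L = n) {F : IntermediateField ℂ K}
    (hLF : ∀ f : L, algebraMap L K f ∈ F) {z : Fin n → L} {E : Fin n → Derivation ℂ L L}
    (hz : IsTranscendenceBasis ℂ z) (hE : ∀ i j, E i (z j) = if i = j then 1 else 0)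
    {ω : (Fin n → Derivation ℂ K K) → K} (hω : IsPluri 1 ω) (hne : ∃ D, ω D ≠ 0)
    (hval : ∀ E' : Fin n → Derivation ℂ K K,
      (∀ i f, E' i (algebraMap L K f) = algebraMap L K (E i f)) → ω E' ∈ F) :
    Pool.Agent.R882.LT.TraceNe ω F := by
  let iA : Algebra L F := ((algebraMap L K).codRestrict F.toSubring hLF).toAlgebra
  have h1 : IsScalarTower L F K := IsScalarTower.of_algebraMap_eq fun _ => rfl
  have h2 : IsScalarTower ℂ L F := IsScalarTower.of_algebraMap_eq fun c => Subtype.ext (by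
    change algebraMap ℂ K c = algebraMap L K (algebraMap ℂ L c)
    exact IsScalarTower.algebraMap_apply ℂ L K c)
  have h3 : FiniteDimensional L F :=
    Module.Finite.of_injective (IsScalarTower.toAlgHom L F K).toLinearMap
      (algebraMap F K).injective
  have h4 : FiniteDimensional F K := Module.Finite.of_restrictScalars_finite L F K
  have hF : Algebra.trdeg ℂ F = n := trdeg_up (K := L) (L := F) hL
  choose E1 hE1 using fun i => exists_lift (L := F) hL (E i)
  choose E' hE' using fun i => exists_lift (L := K) hF (E1 i)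
  have hE'' : ∀ i f, E' i (algebraMap L K f) = algebraMap L K (E i f) := by
    intro i f
    have h4 := hE' i (algebraMap L F f)
    rw [hE1] at h4
    exact h4
  refine ⟨E1, E', hE', ?_⟩
  have h5 : ω E' = algebraMap F K ⟨ω E', hval E' hE''⟩ := rfl
  rw [h5, Algebra.trace_algebraMap, nsmul_eq_mul]
  refine mul_ne_zero ?_ ?_
  · have h6 : 0 < finrank F K := finrank_pos
    exact_mod_cast h6.ne'
  · intro h6
    have h7 := congrArg (fun z : F => (z : K)) h6
    exact omega_ne hz hE hE'' hω hne h7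

/-- **Canonical forms on the image, over a fibration.** -/
theorem partB (hL : Algebra.trdeg ℂ L = n) {t : Fin N → K}
    (hd : Algebra.trdeg ℂ (IntermediateField.adjoin ℂ (Set.range t)) = d)
    (hcl : ∀ x : K, IsAlgebraic (IntermediateField.adjoin ℂ (Set.range t)) x →
      x ∈ IntermediateField.adjoin ℂ (Set.range t))
    {ω : (Fin n → Derivation ℂ K K) → K} (hω : IsTwistedM n 1 M t ω)
    (hne : ∃ D, ω D ≠ 0) {θ : (Fin n → Derivation ℂ L L) → L} (hθ : IsPluri 1 θ)
    (hθr : ∀ P : Place ℂ L, Divisorial n P → RegAt P θ) (hθ0 : ∃ D, θ D ≠ 0)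
    (hkd : ¬ Pool.Agent.W619.Y.KodTr ℂ K n (d + 1))
    (hdeg : 2 * finrank L (IntermediateField.adjoin L (Set.range t)) ≤ M + 1) :
    Pool.Agent.W619.Y.KodTr ℂ L n d := by
  classical
  have hK : Algebra.trdeg ℂ K = n := trdeg_up (K := L) hL
  have hM : 1 ≤ M := by
    have h1 : 0 < finrank L (IntermediateField.adjoin L (Set.range t)) := finrank_pos
    omega
  obtain ⟨z, E, hz, hE⟩ := exists_crd (k := ℂ) (K := L) hL
  have hθE : θ E ≠ 0 := by
    obtain ⟨D, hD⟩ := hθ0
    intro h0
    apply hD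
    rw [pluri_coord hz hE hθ D, h0, mul_zero]
  obtain ⟨F, hF⟩ : ∃ F, F = (IntermediateField.adjoin L (Set.range t)).restrictScalars ℂ :=
    ⟨_, rfl⟩
  have hLF : ∀ f : L, algebraMap L K f ∈ F := fun f => by
    rw [hF]
    exact (IntermediateField.adjoin L (Set.range t)).algebraMap_mem f
  have htF : IntermediateField.adjoin ℂ (Set.range t) ≤ F := by
    rw [IntermediateField.adjoin_le_iff, hF]
    exact IntermediateField.subset_adjoin L _
  have htn : Pool.Agent.R882.LT.TraceNe ω F := by
    refine traceNe_of hL hLF hz hE hω.1 hne fun E' hE' => ?_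
    have h1 := htF (hcl _ (by
      have h2 := alg_ratio hL le_rfl le_rfl hd hM hω hne (k := 1) hθ hθr hkd hz hE hE'
      rwa [pow_one] at h2))
    have hωE := omega_ne hz hE hE' hω.1 hne
    have h2 : ω E' = algebraMap L K (θ E) / (algebraMap L K (θ E) / ω E') := by
      have h3 : algebraMap L K (θ E) ≠ 0 := by
        rwa [Ne, map_eq_zero]
      field_simp
    rw [h2]
    exact F.div_mem (hLF _) h1
  exact (Pool.Agent.R882.LT.core_img hK hd hF hω htn).2 hdeg

end

end Pool.Agent.Helper65.Desc
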