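import Pool.Agent.Y692.NT.Tr
import Pool.Agent.W619.PQ.Approx

/-!
The norm of an element with poles bounded by the ramification, times a power of the discriminant of
a generator, is regular.
-/

set_option autoImplicit false
set_option linter.overlappingInstances false
set_option linter.unusedSectionVars false

open FF Module Pool.Agent.W603.LV Pool.Agent.W619.PQ Pool.Agent.Y172

namespace Pool.Agent.Helper65.Desc

section

variable {k K : Type} [Field k] [Field K] [Algebra k K]

theorem approx_all (S : Finset (Place k K)) (a : Place k K → K) (N : ℤ) :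
    ∃ z : K, ∀ P ∈ S, Ge P N (z - a P) := by
  classical
  choose b hb1 hb2 using fun P : Place k K => approx_one (S.erase P) P (Finset.notMem_erase P S)
    (a P) N
  refine ⟨∑ P ∈ S, b P, fun P hP => ?_⟩
  rw [← Finset.add_sum_erase _ _ hP]
  have h1 : b P + ∑ Q ∈ S.erase P, b Q - a P = (b P - a P) + ∑ Q ∈ S.erase P, b Q := by ring
  rw [h1]
  refine (hb1 P).add (Ge.sum _ _ fun Q hQ => ?_)
  rw [Finset.mem_erase] at hQ
  exact hb2 Q P (Finset.mem_erase.2 ⟨hQ.1.symm, hP⟩)

theorem ord_of_close {P : Place k K} {z a : K} {N : ℤ} (ha : a ≠ 0) (hN : P.ord a < N)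
    (h : Ge P N (z - a)) : z ≠ 0 ∧ P.ord z = P.ord a := by
  rcases h with h | h
  · rw [sub_eq_zero] at h
    rw [h]
    exact ⟨ha, rfl⟩
  · by_cases hz : z - a = 0
    · rw [sub_eq_zero] at hz
      rw [hz]
      exact ⟨ha, rfl⟩
    have h1 := P.ord_add_eq ha hz (hN.trans_le h)
    have h2 : a + (z - a) = z := by ring
    rw [h2] at h1
    refine ⟨fun h0 => ?_, h1.2⟩
    exact h1.1 h0

/-- an element with given orders at finitely many places -/
theorem exists_ord (S : Finset (Place k K)) (c : Place k K → ℤ) :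
    ∃ g : K, g ≠ 0 ∧ ∀ Q ∈ S, Q.ord g = c Q := by
  classical
  rcases S.eq_empty_or_nonempty with rfl | hne
  · exact ⟨1, one_ne_zero, by simp⟩
  choose t ht0 ht using fun Q : Place k K => Q.surj
  obtain ⟨z, hz⟩ := approx_all S (fun Q => t Q ^ (c Q)) (1 + ∑ Q ∈ S, |c Q|)
  have key : ∀ Q ∈ S, z ≠ 0 ∧ Q.ord z = c Q := by
    intro Q hQ
    have h1 : Q.ord (t Q ^ c Q) = c Q := by rw [Q.ord_zpow, ht, mul_one]
    have h2 : |c Q| ≤ ∑ Q ∈ S, |c Q| :=
      Finset.single_le_sum (f := fun Q => |c Q|) (fun _ _ => abs_nonneg _) hQ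
    have h3 := le_abs_self (c Q)
    have h4 := ord_of_close (zpow_ne_zero _ (ht0 Q)) (by rw [h1]; omega) (hz Q hQ)
    rw [h1] at h4
    exact h4
  obtain ⟨Q0, hQ0⟩ := hne
  exact ⟨z, (key Q0 hQ0).1, fun Q hQ => (key Q hQ).2⟩

end

section

variable {L K : Type} [Field L] [Field K] [Algebra L K] [FiniteDimensional L K]

/-- the discriminant of the powers of `h` -/
noncomputable def dsc (L : Type) {K : Type} [Field L] [Field K] [Algebra L K] (h : K) : L :=
  (Matrix.of fun i j : Fin (finrank L K) => Algebra.trace L K (h ^ (i + j : ℕ))).det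

/-- the Gram matrix of a basis multiplied by an element -/
theorem det_basis {r : ℕ} (b : Basis (Fin r) L K) (g : K) :
    (Matrix.of fun i j : Fin r => Algebra.trace L K (g * (b i * b j))).det =
      Algebra.norm L g * (Matrix.of fun i j : Fin r => Algebra.trace L K (b i * b j)).det := by
  rw [Algebra.norm_eq_matrix_det b g, ← Matrix.det_transpose (Algebra.leftMulMatrix b g),
    ← Matrix.det_mul]
  congr 1
  ext i j
  rw [Matrix.of_apply, Matrix.mul_apply]
  have h1 : g * b i = ∑ k, Algebra.leftMulMatrix b g k i • b k := by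
    conv_lhs => rw [← b.sum_repr (g * b i)]
    exact Finset.sum_congr rfl fun k _ => by rw [Algebra.leftMulMatrix_eq_repr_mul]
  rw [← mul_assoc, h1, Finset.sum_mul, map_sum]
  refine Finset.sum_congr rfl fun k _ => ?_
  rw [smul_mul_assoc, map_smul, smul_eq_mul, Matrix.transpose_apply, Matrix.of_apply]

theorem det_tr (h g : K) :
    (Matrix.of fun i j : Fin (finrank L K) => Algebra.trace L K (g * h ^ (i + j : ℕ))).det =
      Algebra.norm L g * dsc L h := by
  classical
  by_cases hli : LinearIndependent L (fun i : Fin (finrank L K) => h ^ (i : ℕ))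
  · have hne : Nonempty (Fin (finrank L K)) := ⟨⟨0, finrank_pos⟩⟩
    let b := basisOfLinearIndependentOfCardEqFinrank hli (Fintype.card_fin _)
    have hb : ∀ i, b i = h ^ (i : ℕ) := fun i => by
      rw [coe_basisOfLinearIndependentOfCardEqFinrank]
    have h1 := det_basis b g
    simp only [hb, ← pow_add] at h1
    exact h1
  · rw [Fintype.linearIndependent_iff] at hli
    push Not at hli
    obtain ⟨c, hc, i0, hi0⟩ := hli
    have hc0 : c ≠ 0 := fun h0 => hi0 (by rw [h0]; rfl)
    have key : ∀ g : K, (Matrix.of fun i j : Fin (finrank L K) =>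
        Algebra.trace L K (g * h ^ (i + j : ℕ))).det = 0 := by
      intro g
      rw [← Matrix.exists_mulVec_eq_zero_iff]
      refine ⟨c, hc0, ?_⟩
      funext i
      change ∑ j, (Matrix.of fun i j : Fin (finrank L K) =>
        Algebra.trace L K (g * h ^ (i + j : ℕ))) i j * c j = 0
      have h1 : ∀ j : Fin (finrank L K), (Matrix.of fun i j : Fin (finrank L K) =>
          Algebra.trace L K (g * h ^ (i + j : ℕ))) i j * c j =
          Algebra.trace L K (g * h ^ (i : ℕ) * (c j • h ^ (j : ℕ))) := by
        intro j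
        rw [Matrix.of_apply, mul_smul_comm, map_smul, smul_eq_mul, mul_comm, pow_add]
        congr 2
        ring
      rw [Finset.sum_congr rfl fun j _ => h1 j, ← map_sum, ← Finset.mul_sum, hc, mul_zero,
        map_zero]
    rw [key g]
    have h1 := key 1
    simp only [one_mul] at h1
    rw [dsc, h1, mul_zero]

/-- the discriminant of a generator -/
theorem dsc_ne [CharZero L] {h : K} (hgen : IntermediateField.adjoin L {h} = ⊤) : dsc L h ≠ 0 := by
  classical
  have h1 : (minpoly L h).natDegree = finrank L K :=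
    (Field.primitive_element_iff_minpoly_natDegree_eq L h).1 hgen
  have h2 := linearIndependent_pow (K := L) h
  rw [h1] at h2
  have hne : Nonempty (Fin (finrank L K)) := ⟨⟨0, finrank_pos⟩⟩
  let b := basisOfLinearIndependentOfCardEqFinrank h2 (Fintype.card_fin _)
  have hb : ∀ i, b i = h ^ (i : ℕ) := fun i => by
    rw [coe_basisOfLinearIndependentOfCardEqFinrank]
  have h3 := Algebra.discr_not_zero_of_basis L b
  rw [Algebra.discr_def] at h3
  intro h4
  apply h3
  rw [← h4, dsc]
  congr 1
  ext i j
  rw [Algebra.traceMatrix_apply, Algebra.traceForm_apply, hb, hb, Matrix.of_apply, pow_add]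

end

section

variable {k L K : Type} [Field k] [CharZero k] [Field L] [Field K] [Algebra k L] [Algebra k K]
  [Algebra L K] [IsScalarTower k L K] [FiniteDimensional L K]

/-- the norm of an element which is regular at the places over `q` is regular at `q` -/
theorem norm_reg (q : Place k L) (z : K)
    (hz : ∀ (w : Place k K) (e : ℕ), Over w q e → Ge w 0 z) : Ge q 0 (Algebra.norm L z) := by
  have : CharZero L := charZero_of_injective_algebraMap (algebraMap k L).injective
  let iA : Algebra q.O K := algO q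
  have h1 : IsIntegral q.O z := isIntegral_of_reg q z hz
  have : IsScalarTower q.O L K := IsScalarTower.of_algebraMap_eq fun _ => rfl
  have h2 : IsIntegral q.O (Algebra.norm L z) := Algebra.isIntegral_norm L h1
  obtain ⟨a, ha⟩ := IsIntegrallyClosed.isIntegral_iff.1 h2
  rw [← ha]
  exact a.2

/-- **The local estimate.** -/
theorem local_reg {q : Place k L} {m M : ℕ} {h x : K} (hM : 2 * (finrank L K - 1) ≤ M)
    {a : Place k K → ℤ} (ha : ∀ Q, 0 ≤ a Q)
    (hh : ∀ (Q : Place k K) (e : ℕ), Over Q q e → Ge Q (-(a Q)) h)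
    (hx : ∀ (Q : Place k K) (e : ℕ), Over Q q e → Ge Q (m * ((1 - e) + M * a Q)) x) :
    Ge q 0 (Algebra.norm L x * dsc L h ^ m) := by
  classical
  have : CharZero L := charZero_of_injective_algebraMap (algebraMap k L).injective
  have hfin := finite_over (K' := K) q
  let ix : Place k K → ℕ := fun Q => if h : ∃ e, Over Q q e then h.choose else 0
  have hix : ∀ (Q : Place k K) (e : ℕ), Over Q q e → ix Q = e := by
    intro Q e hQ
    have h1 : ∃ e, Over Q q e := ⟨e, hQ⟩
    change (if h : ∃ e, Over Q q e then h.choose else 0) = e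
    rw [dif_pos h1]
    exact (Pool.Agent.Y172.over_unique' h1.choose_spec hQ).2
  obtain ⟨g, hg0, hg⟩ := exists_ord hfin.toFinset (fun Q => (1 - (ix Q : ℤ)) + M * a Q)
  have hg' : ∀ (Q : Place k K) (e : ℕ), Over Q q e → Q.ord g = (1 - (e : ℤ)) + M * a Q := by
    intro Q e hQ
    rw [hg Q (hfin.mem_toFinset.2 ⟨e, hQ⟩), hix Q e hQ]
  -- the Gram determinant
  have h1 : Ge q 0 (Algebra.norm L g * dsc L h) := by
    rw [← det_tr]
    refine ge_det q _ 0 (fun _ _ => 0) (fun i j => ?_) fun σ => by simp
    rw [Matrix.of_apply]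
    refine Pool.Agent.Y692.NT.trace_reg q _ fun Q e hQ => ?_
    have h2 : Ge Q ((1 - (e : ℤ)) + M * a Q) g := Or.inr (hg' Q e hQ).ge
    have h3 := h2.mul ((hh Q e hQ).pow (i + j : ℕ))
    refine h3.mono ?_
    have h4 : ((i + j : ℕ) : ℤ) ≤ M := by
      have := i.2
      have := j.2
      omega
    have h5 := mul_le_mul_of_nonneg_right h4 (ha Q)
    linarith
  have h2 : Ge q 0 (Algebra.norm L (x / g ^ m)) := by
    refine norm_reg q _ fun Q e hQ => ?_
    have h3 := Pool.Agent.W602.GT.ge_div (pow_ne_zero m hg0) (hx Q e hQ)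
    rw [Q.ord_pow, hg' Q e hQ] at h3
    simpa using h3
  have h3 : Algebra.norm L x * dsc L h ^ m =
      Algebra.norm L (x / g ^ m) * (Algebra.norm L g * dsc L h) ^ m := by
    rw [mul_pow, ← map_pow, ← mul_assoc, ← map_mul, div_mul_cancel₀ _ (pow_ne_zero m hg0)]
  rw [h3]
  have h4 := h2.mul (h1.pow m)
  simpa using h4

end

end Pool.Agent.Helper65.Desc
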