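import Mathlib
import Pool.Agent.R885.MB

/-!
Primitive elements with constant coefficients, and algebraically independent norms.
-/

set_option autoImplicit false

open Module

namespace Pool.Agent.Helper65.Desc

theorem trdeg_le_of_alg {k K : Type} [Field k] [Field K] [Algebra k K] {F E : IntermediateField k K}
    (h : ∀ z ∈ E, IsAlgebraic F z) : Algebra.trdeg k E ≤ Algebra.trdeg k F := by
  let C : IntermediateField F K := algebraicClosure F K
  have h1 : Algebra.trdeg k F + Algebra.trdeg F C = Algebra.trdeg k C := trdeg_add_eq k F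
  have h2 : Algebra.trdeg F C = 0 := trdeg_eq_zero
  let φ : E →ₐ[k] C :=
    { toFun := fun z => ⟨z, mem_algebraicClosure_iff.2 (h z z.2)⟩
      map_one' := rfl
      map_mul' := fun _ _ => rfl
      map_zero' := rfl
      map_add' := fun _ _ => rfl
      commutes' := fun _ => rfl }
  have h3 := trdeg_le_of_injective φ fun x y hxy => Subtype.ext (congrArg (fun z : C => (z : K)) hxy)
  rw [← h1, h2, add_zero] at h3
  exact h3

theorem alg_mono {k K : Type} [Field k] [Field K] [Algebra k K] {F1 F2 : IntermediateField k K}
    (h : F1 ≤ F2) {z : K} (hz : IsAlgebraic F1 z) : IsAlgebraic F2 z := by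
  let iA : Algebra F1 F2 := (IntermediateField.inclusion h).toRingHom.toAlgebra
  have hT : IsScalarTower F1 F2 K := IsScalarTower.of_algebraMap_eq fun c => rfl
  exact hz.tower_top F2

/-- an element is algebraic over the norms of its translates by constants -/
theorem alg_norm {k L K : Type} [Field k] [Infinite k] [Field L] [Field K] [Algebra k L]
    [Algebra k K] [Algebra L K] [IsScalarTower k L K] [FiniteDimensional L K] (τ : K) :
    IsAlgebraic (IntermediateField.adjoin k (Set.range fun c : k =>
      algebraMap L K (Algebra.norm L (algebraMap k K c - τ)))) τ := by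
  classical
  obtain ⟨F0, hF0⟩ : ∃ F0, F0 = IntermediateField.adjoin k (Set.range fun c : k =>
      algebraMap L K (Algebra.norm L (algebraMap k K c - τ))) := ⟨_, rfl⟩
  rw [← hF0]
  have hmem : ∀ c : k, algebraMap L K (Algebra.norm L (algebraMap k K c - τ)) ∈ F0 := fun c => by
    rw [hF0]
    exact IntermediateField.subset_adjoin _ _ ⟨c, rfl⟩
  obtain ⟨χ, hχ⟩ : ∃ χ, χ = (Algebra.lmul L K τ).charpoly := ⟨_, rfl⟩
  have hmon : χ.Monic := by rw [hχ]; exact LinearMap.charpoly_monic _
  have hroot : Polynomial.aeval τ χ = 0 := by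
    have h1 := LinearMap.aeval_self_charpoly (Algebra.lmul L K τ)
    rw [← hχ, Polynomial.aeval_algHom_apply] at h1
    have h2 := congrArg (fun f : Module.End L K => f 1) h1
    simpa using h2
  have heval : ∀ c : k, χ.eval (algebraMap k L c) = Algebra.norm L (algebraMap k K c - τ) := by
    intro c
    rw [hχ, LinearMap.eval_charpoly, Algebra.norm_apply]
    congr 1
    rw [map_sub, IsScalarTower.algebraMap_apply k L K, AlgHom.commutes]
  obtain ⟨s, hs⟩ := Infinite.exists_subset_card_eq k (χ.natDegree + 1)
  have hinjF : Set.InjOn (algebraMap k F0) (s : Set k) := (algebraMap k F0).injective.injOn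
  let P : Polynomial F0 := Lagrange.interpolate s (algebraMap k F0) fun c => ⟨_, hmem c⟩
  have hP : P.map (algebraMap F0 K) = χ.map (algebraMap L K) := by
    refine Polynomial.eq_of_degrees_lt_of_eval_index_eq (v := algebraMap k K) s
      (algebraMap k K).injective.injOn ?_ ?_ fun c hc => ?_
    · refine lt_of_le_of_lt Polynomial.degree_map_le ?_
      exact Lagrange.degree_interpolate_lt _ hinjF
    · refine lt_of_le_of_lt Polynomial.degree_map_le ?_
      rw [hs]
      exact lt_of_le_of_lt Polynomial.degree_le_natDegree (by exact_mod_cast Nat.lt_succ_self _)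
    · have h1 : algebraMap k K c = algebraMap F0 K (algebraMap k F0 c) :=
        IsScalarTower.algebraMap_apply k F0 K c
      have h2 : algebraMap k K c = algebraMap L K (algebraMap k L c) :=
        IsScalarTower.algebraMap_apply k L K c
      rw [h1, Polynomial.eval_map, Polynomial.eval₂_at_apply, ← h1, h2, Polynomial.eval_map,
        Polynomial.eval₂_at_apply, heval]
      change algebraMap F0 K (P.eval (algebraMap k F0 c)) = _
      rw [Lagrange.eval_interpolate_at_node _ hinjF hc]
      rfl
  refine ⟨P, ?_, ?_⟩
  · intro h0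
    rw [h0, Polynomial.map_zero] at hP
    exact (hmon.map (algebraMap L K)).ne_zero hP.symm
  · rw [Polynomial.aeval_def, ← Polynomial.eval_map, hP, Polynomial.eval_map, ← Polynomial.aeval_def]
    exact hroot

/-- a primitive element with constant coefficients -/
theorem exists_prim {k L K : Type} [Field k] [Infinite k] [Field L] [Field K] [CharZero L]
    [Algebra k L] [Algebra k K] [Algebra L K] [IsScalarTower k L K] [FiniteDimensional L K] {N : ℕ}
    {t : Fin N → K} (ht : IntermediateField.adjoin L (Set.range t) = ⊤) :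
    ∃ c : Fin N → k, IntermediateField.adjoin L {∑ j, c j • t j} = ⊤ := by
  classical
  let A := AlgebraicClosure L
  have hspl : ∀ x : K, ((minpoly L x).map (algebraMap L A)).Splits := fun x =>
    IsAlgClosed.splits _
  let p : (K →ₐ[L] A) × (K →ₐ[L] A) → Submodule k (Fin N → k) := fun q =>
    if q.1 = q.2 then ⊥ else
      LinearMap.ker (Fintype.linearCombination k (fun j => q.1 (t j) - q.2 (t j)))
  have hN : ∀ q : (K →ₐ[L] A) × (K →ₐ[L] A), q.1 ≠ q.2 → ∃ j, q.1 (t j) ≠ q.2 (t j) := by
    intro q hq
    by_contra hcon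
    push Not at hcon
    apply hq
    ext x
    have hx : x ∈ IntermediateField.adjoin L (Set.range t) := by rw [ht]; trivial
    induction hx using IntermediateField.adjoin_induction with
    | mem x hx => obtain ⟨j, rfl⟩ := hx; exact hcon j
    | algebraMap x => rw [AlgHom.commutes, AlgHom.commutes]
    | add x y _ _ h1 h2 => rw [map_add, map_add, h1, h2]
    | inv x _ h1 => rw [map_inv₀, map_inv₀, h1]
    | mul x y _ _ h1 h2 => rw [map_mul, map_mul, h1, h2]
  by_cases hsub : Subsingleton (K →ₐ[L] A)
  · refine ⟨0, ?_⟩
    rw [Field.primitive_element_iff_algHom_eq_of_eval' L A hspl]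
    intro x y _
    exact Subsingleton.elim x y
  have hp : ∀ q, p q ≠ ⊤ := by
    intro q
    change (if _ then _ else _) ≠ _
    split_ifs with h
    · rw [not_subsingleton_iff_nontrivial] at hsub
      obtain ⟨x, y, hxy⟩ := exists_pair_ne (K →ₐ[L] A)
      obtain ⟨j, -⟩ := hN (x, y) hxy
      intro htop
      have h1 : (Pi.single j 1 : Fin N → k) ∈ (⊥ : Submodule k (Fin N → k)) := by
        rw [htop]; trivial
      rw [Submodule.mem_bot] at h1
      have h2 := congrFun h1 j
      rw [Pi.single_eq_same] at h2
      exact one_ne_zero h2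
    · obtain ⟨j, hj⟩ := hN q h
      intro htop
      have h1 : (Pi.single j 1 : Fin N → k) ∈
          LinearMap.ker (Fintype.linearCombination k (fun j => q.1 (t j) - q.2 (t j))) := by
        rw [htop]
        trivial
      rw [LinearMap.mem_ker, Fintype.linearCombination_apply_single, one_smul] at h1
      exact hj (sub_eq_zero.1 h1)
  have h1 : (⋃ q, (p q : Set (Fin N → k))) ≠ Set.univ := by
    intro h
    obtain ⟨q, hq⟩ := Subspace.exists_eq_top_of_iUnion_eq_univ h
    exact hp q hq
  obtain ⟨c, hc⟩ := (Set.ne_univ_iff_exists_notMem _).1 h1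
  rw [Set.mem_iUnion, not_exists] at hc
  refine ⟨c, ?_⟩
  rw [Field.primitive_element_iff_algHom_eq_of_eval' L A hspl]
  intro x y hxy
  by_contra hne
  apply hc (x, y)
  have hpq : p (x, y) = LinearMap.ker (Fintype.linearCombination k (fun j => x (t j) - y (t j))) :=
    if_neg hne
  change c ∈ p (x, y)
  rw [hpq, LinearMap.mem_ker, Fintype.linearCombination_apply]
  simp only [smul_sub, Finset.sum_sub_distrib]
  have h2 : ∀ σ : K →ₐ[L] A, ∑ j, c j • σ (t j) = σ (∑ j, c j • t j) := by
    intro σ
    rw [map_sum]
    refine Finset.sum_congr rfl fun j _ => ?_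
    rw [← algebraMap_smul L (c j) (t j), map_smul, algebraMap_smul]
  rw [h2, h2, sub_eq_zero]
  exact hxy

/-- algebraically independent norms of translates of the coordinates -/
theorem select {k L K : Type} [Field k] [Infinite k] [Field L] [Field K] [Algebra k L]
    [Algebra k K] [Algebra L K] [IsScalarTower k L K] [FiniteDimensional L K] {n d N : ℕ}
    (hL : Algebra.trdeg k L = n) {t : Fin N → K}
    (hd : Algebra.trdeg k (IntermediateField.adjoin k (Set.range t)) = d) :
    ∃ (J : Fin d → Fin N) (c : Fin d → k), AlgebraicIndependent k fun i =>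
      Algebra.norm L (algebraMap k K (c i) - t (J i)) := by
  let φ : L →ₐ[k] K := IsScalarTower.toAlgHom k L K
  let G : Set L := Set.range fun p : Fin N × k => Algebra.norm L (algebraMap k K p.2 - t p.1)
  let E : IntermediateField k L := IntermediateField.adjoin k G
  have hEn : Algebra.trdeg k E ≤ (n : Cardinal) := by
    rw [← hL]
    exact trdeg_le_of_injective E.val E.val.toRingHom.injective
  obtain ⟨d', hd'⟩ := Cardinal.lt_aleph0.1 (lt_of_le_of_lt hEn (Cardinal.natCast_lt_aleph0 (n := n)))
  obtain ⟨v, hvG, hv, -⟩ := Pool.Agent.R885.exists_mono_basis hd'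
  have hFd : Algebra.trdeg k (E.map φ) = d' := by
    rw [← hd']
    exact (IntermediateField.equivMap E φ).symm.trdeg_eq
  have hle : (d : Cardinal) ≤ d' := by
    rw [← hd, ← hFd]
    refine trdeg_le_of_alg fun z hz => ?_
    have h1 : IntermediateField.adjoin k (Set.range t) ≤
        (algebraicClosure (E.map φ) K).restrictScalars k := by
      rw [IntermediateField.adjoin_le_iff]
      rintro _ ⟨j, rfl⟩
      change t j ∈ algebraicClosure (E.map φ) K
      rw [mem_algebraicClosure_iff]
      refine alg_mono ?_ (alg_norm (k := k) (L := L) (t j))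
      rw [IntermediateField.adjoin_le_iff]
      rintro _ ⟨c, rfl⟩
      exact ⟨_, IntermediateField.subset_adjoin _ _ ⟨(j, c), rfl⟩, rfl⟩
    exact mem_algebraicClosure_iff.1 (h1 hz)
  have hle' : d ≤ d' := by exact_mod_cast hle
  choose p hp using hvG
  refine ⟨fun i => (p (Fin.castLE hle' i)).1, fun i => (p (Fin.castLE hle' i)).2, ?_⟩
  have h2 := hv.comp (Fin.castLE hle') (Fin.castLE_injective hle')
  have h3 : (v ∘ Fin.castLE hle') = fun i => Algebra.norm L
      (algebraMap k K (p (Fin.castLE hle' i)).2 - t (p (Fin.castLE hle' i)).1) := by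
    funext i
    exact (hp _).symm
  rwa [h3] at h2

end Pool.Agent.Helper65.Desc
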