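import Pool.Agent.R882.TFin
import Pool.Agent.W300.PG.TRGE
import Pool.Agent.Helper65.Desc.Sel
import Pool.Agent.Helper65.Desc.Loc

/-!
Descent of pluricanonical forms along maps of small degree, by norms and discriminants.
-/

set_option autoImplicit false
set_option linter.unusedSectionVars false
set_option linter.overlappingInstances false

open FF Module Pool.Agent.W602.GT Pool.Agent.W603.LV Pool.Agent.W619.PQ Pool.Agent.Y172
open Pool.Agent.W619.TW

namespace Pool.Agent.Helper65.Desc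

section

variable {K : Type} [Field K] [Algebra ℂ K] {n N m M : ℕ}

/-- `ω` is a section of `m K_V - M H`, where `H` is the pullback of the hyperplane class under the
map given by `1, t_1, ..., t_N`. -/
def IsTwistedM (n m M : ℕ) (t : Fin N → K) (ω : (Fin n → Derivation ℂ K K) → K) : Prop :=
  IsPluri m ω ∧ ∀ a : Fin N → ℕ, ∑ j, a j ≤ M → ∀ P : Place ℂ K, Divisorial n P →
    RegAt P (fun D => (∏ j, t j ^ a j) * ω D)

/-- the pole order of the coordinates -/
noncomputable def pol (t : Fin N → K) (Q : Place ℂ K) : ℤ :=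
  (Finset.univ : Finset (Fin (N + 1))).sup' ⟨0, Finset.mem_univ _⟩
    fun j => -(Q.ord ((Fin.cons 1 t : Fin (N + 1) → K) j))

theorem le_pol (t : Fin N → K) (Q : Place ℂ K) (j : Fin (N + 1)) :
    -(Q.ord ((Fin.cons 1 t : Fin (N + 1) → K) j)) ≤ pol t Q :=
  Finset.le_sup' (fun j => -(Q.ord ((Fin.cons 1 t : Fin (N + 1) → K) j))) (Finset.mem_univ j)

theorem pol_nonneg (t : Fin N → K) (Q : Place ℂ K) : 0 ≤ pol t Q := by
  have h := le_pol t Q 0
  rw [Fin.cons_zero, Q.ord_one, neg_zero] at h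
  exact h

theorem ge_pol (t : Fin N → K) (Q : Place ℂ K) (j : Fin N) : Ge Q (-(pol t Q)) (t j) := by
  have h := le_pol t Q j.succ
  rw [Fin.cons_succ] at h
  exact Or.inr (by omega)

theorem exists_pol (t : Fin N → K) (Q : Place ℂ K) :
    ∃ j : Fin (N + 1), (Fin.cons 1 t : Fin (N + 1) → K) j ≠ 0 ∧
      pol t Q = -(Q.ord ((Fin.cons 1 t : Fin (N + 1) → K) j)) := by
  obtain ⟨j, -, hj⟩ := Finset.exists_mem_eq_sup' (s := (Finset.univ : Finset (Fin (N + 1))))
    ⟨0, Finset.mem_univ _⟩ fun j => -(Q.ord ((Fin.cons 1 t : Fin (N + 1) → K) j))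
  by_cases h0 : (Fin.cons 1 t : Fin (N + 1) → K) j = 0
  · refine ⟨0, by rw [Fin.cons_zero]; exact one_ne_zero, ?_⟩
    rw [pol, hj, h0, Fin.cons_zero, Q.ord_zero, Q.ord_one]
  · exact ⟨j, h0, hj⟩

theorem IsTwistedM.pow {t : Fin N → K} {ω : (Fin n → Derivation ℂ K K) → K}
    (h : IsTwistedM n m M t ω) (j : Fin (N + 1)) (P : Place ℂ K) (hP : Divisorial n P) :
    RegAt P (fun D => (Fin.cons 1 t : Fin (N + 1) → K) j ^ M * ω D) := by
  classical
  refine Fin.cases ?_ (fun i => ?_) j
  · have h1 := h.2 0 (by simp) P hP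
    simpa using h1
  · have h1 := h.2 (Pi.single i M) (by simp) P hP
    have h2 : ∏ j, t j ^ (Pi.single i M : Fin N → ℕ) j = t i ^ M := by
      rw [Finset.prod_eq_single i]
      · rw [Pi.single_eq_same]
      · intro b _ hb
        rw [Pi.single_eq_of_ne hb, pow_zero]
      · intro hi
        exact absurd (Finset.mem_univ i) hi
    rw [h2] at h1
    simpa using h1

/-- a pluricanonical form, in coordinates -/
noncomputable def plF (w : ℕ) (z : Fin n → K) (s : K) (G : Fin n → Derivation ℂ K K) : K :=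
  (Matrix.of fun i j => G i (z j) : Matrix (Fin n) (Fin n) K).det ^ w * s

theorem plF_pluri (w : ℕ) (z : Fin n → K) (s : K) : IsPluri w (plF w z s) := by
  intro A D
  have e1 : (Matrix.of fun a b => (∑ j, A a j • D j) (z b)) =
      A * Matrix.of fun a b => D a (z b) := by
    ext a b
    rw [Matrix.of_apply, Matrix.mul_apply, sum_smul_apply]
    rfl
  change (Matrix.of fun a b => (∑ j, A a j • D j) (z b)).det ^ w * s = _
  rw [e1, Matrix.det_mul, mul_pow, mul_assoc]
  rfl

theorem plF_dual {w : ℕ} {z : Fin n → K} {E : Fin n → Derivation ℂ K K}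
    (hE : ∀ i j, E i (z j) = if i = j then 1 else 0) (s : K) : plF w z s E = s := by
  have h1 : (Matrix.of fun i j => E i (z j) : Matrix (Fin n) (Fin n) K) = 1 := by
    ext i j
    rw [Matrix.of_apply, hE, Matrix.one_apply]
  rw [plF, h1, Matrix.det_one, one_pow, one_mul]

theorem isSec_pl {w : ℕ} {ω : (Fin n → Derivation ℂ K K) → K} (hω : IsPluri w ω)
    (h : ∀ P : Place ℂ K, Divisorial n P → RegAt P ω) :
    IsSec ℂ K n (fun _ => False) {1} w 0 ω := by
  have hdom : ∀ (v : Place ℂ K) (f : K), v.Reg f → Dom v {1} 0 f := by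
    intro v f hf
    rcases hf with hf | hf
    · exact Or.inl hf
    · refine Or.inr ⟨1, Finset.mem_singleton_self _, one_ne_zero, ?_⟩
      rw [Nat.cast_zero, zero_mul]
      exact hf
  exact ⟨hω, fun v hv _ D hD => hdom v _ (h v hv D fun i => hD i), fun v _ hB => hB.elim⟩

end

section

variable {L K : Type} [Field L] [Field K] [Algebra ℂ L] [Algebra ℂ K] [Algebra L K]
  [IsScalarTower ℂ L K] [FiniteDimensional L K] [Algebra.EssFiniteType ℂ L]
  [Algebra.EssFiniteType ℂ K] {n N m M d : ℕ}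

/-- the values of a twisted form on lifted frames -/
theorem val_ge (hL : Algebra.trdeg ℂ L = n) {t : Fin N → K} {ω : (Fin n → Derivation ℂ K K) → K}
    (hω : IsTwistedM n m M t ω) {P : Place ℂ L} (hP : Divisorial n P) {yP : Fin n → L}
    {EP : Fin n → Derivation ℂ L L} {i0 : Fin n} (hl : Loc P yP EP i0)
    {EP' : Fin n → Derivation ℂ K K}
    (hEP' : ∀ i f, EP' i (algebraMap L K f) = algebraMap L K (EP i f)) {Q : Place ℂ K} {e : ℕ}
    (hQ : Over Q P e) : Ge Q (m * (1 - e) + M * pol t Q) (ω EP') := by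
  have hK : Algebra.trdeg ℂ K = n := trdeg_up (K := L) hL
  have hQd : Divisorial n Q := divisorial_up hQ hP
  obtain ⟨j, hj0, hj⟩ := exists_pol t Q
  obtain ⟨x, hx⟩ : ∃ x, x = (Fin.cons 1 t : Fin (N + 1) → K) j := ⟨_, rfl⟩
  obtain ⟨W, hW⟩ : ∃ W : (Fin n → Derivation ℂ K K) → K, ∀ D, W D = x ^ M * ω D :=
    ⟨_, fun _ => rfl⟩
  have hWp : IsPluri m W := by
    intro A D
    rw [hW, hW, hω.1 A D]
    ring
  have h1 := down_ge hK hQ hQd hl hEP' hWp (c := 0) (fun G' hG' => by
    have h2 := hω.pow j Q hQd G' hG'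
    rw [hW, hx]
    rcases h2 with h | h
    · exact Or.inl h
    · exact Or.inr (by exact_mod_cast h))
  rw [← hx] at hj0 hj
  by_cases h0 : ω EP' = 0
  · exact Or.inl h0
  right
  have hW0 : W EP' ≠ 0 := by
    rw [hW]
    exact mul_ne_zero (pow_ne_zero _ hj0) h0
  have h2 := h1.resolve_left hW0
  have h3 : (m - e * m : ℤ) ≤ Q.ord (W EP') := by
    have h4 : ((m - e * m : ℤ) : ℝ) ≤ (Q.ord (W EP') : ℝ) := by
      push_cast
      linarith
    exact_mod_cast h4
  rw [hW, Q.ord_mul (pow_ne_zero _ hj0) h0, Q.ord_pow] at h3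
  rw [hj]
  push_cast at h3
  linarith

/-- **The norm form is regular.** -/
theorem norm_form_reg (hL : Algebra.trdeg ℂ L = n) {t : Fin N → K}
    {ω : (Fin n → Derivation ℂ K K) → K} (hω : IsTwistedM n m M t ω) {z : Fin n → L}
    {E : Fin n → Derivation ℂ L L} (hz : IsTranscendenceBasis ℂ z)
    (hE : ∀ i j, E i (z j) = if i = j then 1 else 0) {E' : Fin n → Derivation ℂ K K}
    (hE' : ∀ i f, E' i (algebraMap L K f) = algebraMap L K (E i f)) {h g : K} {b : ℕ}
    (hM : b + m * (2 * (finrank L K - 1)) ≤ M)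
    (hh : ∀ Q : Place ℂ K, Ge Q (-(pol t Q)) h) (hg : ∀ Q : Place ℂ K, Ge Q (-(b * pol t Q)) g)
    (P : Place ℂ L) (hP : Divisorial n P) :
    RegAt P (plF (m * finrank L K) z (Algebra.norm L (g * ω E') * dsc L h ^ m)) := by
  classical
  intro G hG
  obtain ⟨yP, EP, i0, hl⟩ := exists_loc hL hP
  choose EP' hEP' using fun i => exists_lift (L := K) hL (EP i)
  obtain ⟨B, hB⟩ : ∃ B : Matrix (Fin n) (Fin n) L, B = Matrix.of fun i j => E i (yP j) :=
    ⟨_, rfl⟩
  have hC : (Matrix.of fun i j => G i (yP j) : Matrix (Fin n) (Fin n) L).det =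
      (Matrix.of fun i j => G i (z j) : Matrix (Fin n) (Fin n) L).det * B.det := by
    rw [← Matrix.det_mul]
    congr 1
    ext i j
    rw [Matrix.of_apply, Matrix.mul_apply, hB]
    have h1 := Pool.Agent.W73.PG.PULL.expand z hz E hE (G i)
    conv_lhs => rw [← h1]
    rw [sum_smul_apply]
    rfl
  have hWB : ω E' = algebraMap L K (B.det ^ m) * ω EP' := by
    have h1 := pluri_coord (hl.bas.algebraMap_comp (A := K)) (lift_dual hl.dual hEP') hω.1 E'
    rw [h1, map_pow]
    congr 2
    rw [hB, RingHom.map_det]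
    congr 1
    ext i j
    rw [Matrix.of_apply, RingHom.mapMatrix_apply, Matrix.map_apply, Matrix.of_apply]
    exact hE' i (yP j)
  have hval : plF (m * finrank L K) z (Algebra.norm L (g * ω E') * dsc L h ^ m) G =
      (Matrix.of fun i j => G i (yP j) : Matrix (Fin n) (Fin n) L).det ^ (m * finrank L K) *
        (Algebra.norm L (g * ω EP') * dsc L h ^ m) := by
    have h1 : g * (algebraMap L K (B.det ^ m) * ω EP') =
        algebraMap L K (B.det ^ m) * (g * ω EP') := by ring
    rw [plF, hC, hWB, h1, map_mul (Algebra.norm L) (algebraMap L K (B.det ^ m)),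
      Algebra.norm_algebraMap, ← pow_mul, mul_pow]
    ring
  rw [hval]
  refine P.reg_mul ?_ ?_
  · have h9 : Ge P 0 (Matrix.of fun i j => G i (yP j) : Matrix (Fin n) (Fin n) L).det :=
      Pool.Agent.W603.LV.ge_det P _ _ (fun _ _ => 0) (fun a b => hG a _ (hl.reg b))
        fun σ => by simp
    have h10 := h9.pow (m * finrank L K)
    rw [mul_zero] at h10
    exact h10
  · refine local_reg (q := P) (M := 2 * (finrank L K - 1)) le_rfl (a := pol t) (pol_nonneg t)
      (fun Q _ _ => hh Q) fun Q e hQ => ?_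
    have h1 := val_ge hL hω hP hl hEP' hQ
    have h2 := (hg Q).mul h1
    refine h2.mono ?_
    have h3 : ((b + m * (2 * (finrank L K - 1)) : ℕ) : ℤ) ≤ M := by exact_mod_cast hM
    have h4 := mul_le_mul_of_nonneg_right h3 (pol_nonneg t Q)
    push_cast at h4 ⊢
    linarith

theorem omega_ne {z : Fin n → L} {E : Fin n → Derivation ℂ L L} (hz : IsTranscendenceBasis ℂ z)
    (hE : ∀ i j, E i (z j) = if i = j then 1 else 0) {E' : Fin n → Derivation ℂ K K}
    (hE' : ∀ i f, E' i (algebraMap L K f) = algebraMap L K (E i f))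
    {ω : (Fin n → Derivation ℂ K K) → K} (hω : IsPluri m ω) (hne : ∃ D, ω D ≠ 0) : ω E' ≠ 0 := by
  obtain ⟨D, hD⟩ := hne
  intro h0
  apply hD
  have hzK : IsTranscendenceBasis ℂ (fun j => algebraMap L K (z j)) := hz.algebraMap_comp
  rw [pluri_coord hzK (lift_dual hE hE') hω D, h0, mul_zero]

/-- **Pluricanonical forms on the image.** -/
theorem partA (hm : 1 ≤ m) (hL : Algebra.trdeg ℂ L = n) {t : Fin N → K}
    (ht : IntermediateField.adjoin L (Set.range t) = ⊤) {ω : (Fin n → Derivation ℂ K K) → K}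
    (hω : IsTwistedM n m M t ω) (hne : ∃ D, ω D ≠ 0) :
    (m * (2 * (finrank L K - 1)) ≤ M → ∃ R : ℕ, 1 ≤ R ∧ ∃ η : (Fin n → Derivation ℂ L L) → L,
      IsPluri R η ∧ (∀ P : Place ℂ L, Divisorial n P → RegAt P η) ∧ ∃ D, η D ≠ 0) ∧
    (m * (2 * (finrank L K - 1)) < M →
      Algebra.trdeg ℂ (IntermediateField.adjoin ℂ (Set.range t)) = d →
      Pool.Agent.W619.Y.KodTr ℂ L n d) := by
  classical
  have hcL : CharZero L := charZero_of_injective_algebraMap (algebraMap ℂ L).injective
  obtain ⟨z, E, hz, hE⟩ := exists_crd (k := ℂ) (K := L) hL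
  choose E' hE' using fun i => exists_lift (k := ℂ) (K := L) (L := K) hL (E i)
  have hωE := omega_ne hz hE hE' hω.1 hne
  obtain ⟨c, hc⟩ := exists_prim (k := ℂ) ht
  obtain ⟨h, hh⟩ : ∃ h, h = ∑ j, c j • t j := ⟨_, rfl⟩
  rw [← hh] at hc
  have hhQ : ∀ Q : Place ℂ K, Ge Q (-(pol t Q)) h := by
    intro Q
    rw [hh]
    refine Ge.sum _ _ fun j _ => ?_
    rw [Algebra.smul_def]
    have h1 := (Ge.const (P := Q) (c j)).mul (ge_pol t Q j)
    rwa [zero_add] at h1
  have hd0 := dsc_ne hc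
  have hr : 0 < finrank L K := finrank_pos
  have hR : 1 ≤ m * finrank L K := Nat.mul_pos hm hr
  refine ⟨fun hM => ⟨m * finrank L K, hR, _, plF_pluri _ _ _, fun P hP =>
    norm_form_reg hL hω hz hE hE' (g := 1) (b := 0) (by omega) hhQ (fun Q => by
      simpa using Ge.one (P := Q)) P hP, E, ?_⟩, fun hM hd => ?_⟩
  · rw [plF_dual hE, one_mul]
    exact mul_ne_zero ((Algebra.norm_ne_zero_iff).2 hωE) (pow_ne_zero _ hd0)
  · obtain ⟨J, a, hind⟩ := select (k := ℂ) (L := L) (K := K) hL hd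
    obtain ⟨g, hg⟩ : ∃ g : Fin (d + 1) → K, g = Fin.cons 1 fun i => algebraMap ℂ K (a i) - t (J i) :=
      ⟨_, rfl⟩
    have hg1 : g 0 = 1 := by rw [hg, Fin.cons_zero]
    have hgs : ∀ i : Fin d, g i.succ = algebraMap ℂ K (a i) - t (J i) := fun i => by
      rw [hg, Fin.cons_succ]
    have hgQ : ∀ l (Q : Place ℂ K), Ge Q (-((1 : ℕ) * pol t Q)) (g l) := by
      intro l Q
      have h0 := pol_nonneg t Q
      rw [Nat.cast_one, one_mul]
      refine Fin.cases ?_ (fun i => ?_) l
      · rw [hg1]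
        exact Ge.one.mono (by omega)
      · rw [hgs]
        exact ((Ge.const (P := Q) (a i)).mono (by omega)).sub (ge_pol t Q (J i))
    have hg0 : ∀ l, Algebra.norm L (g l) ≠ 0 := by
      intro l
      refine Fin.cases ?_ (fun i => ?_) l
      · rw [hg1, map_one]
        exact one_ne_zero
      · rw [hgs]
        exact hind.ne_zero i
    refine ⟨m * finrank L K, hR, fun l => plF (m * finrank L K) z
      (Algebra.norm L (g l * ω E') * dsc L h ^ m), fun l => isSec_pl (plF_pluri _ _ _)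
        fun P hP => norm_form_reg hL hω hz hE hE' (b := 1) (by omega) hhQ (hgQ l) P hP,
        E, fun l => ?_, ?_⟩
    · beta_reduce
      rw [plF_dual hE, map_mul]
      exact mul_ne_zero (mul_ne_zero (hg0 l) ((Algebra.norm_ne_zero_iff).2 hωE))
        (pow_ne_zero _ hd0)
    · have h1 : ∀ i : Fin d, plF (m * finrank L K) z
          (Algebra.norm L (g i.succ * ω E') * dsc L h ^ m) E /
          plF (m * finrank L K) z (Algebra.norm L (g 0 * ω E') * dsc L h ^ m) E =
          Algebra.norm L (algebraMap ℂ K (a i) - t (J i)) := by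
        intro i
        have h2 : Algebra.norm L (ω E') ≠ 0 := (Algebra.norm_ne_zero_iff).2 hωE
        have h3 : dsc L h ^ m ≠ 0 := pow_ne_zero _ hd0
        rw [plF_dual hE, plF_dual hE, hg1, hgs, one_mul, map_mul]
        field_simp
      simp only [h1]
      exact hind

end

end Pool.Agent.Helper65.Desc
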